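import Pool.Agent.Lib_helper21.S4.Four

/-! The special class `m = 3K - 1`, `k = K` of (4). -/

namespace S4Four

open Finset

theorem w4_zero_nonneg (m y z : ℤ) (hy : 0 ≤ y) (hz : 0 ≤ z) : 0 ≤ w4 m 0 y z := by
  have hmin : min 0 (min y z) = 0 := min_eq_left (le_min hy hz)
  unfold w4
  rw [hmin]
  split_ifs with h1 h2 h3
  · exact le_refl _
  · norm_num
  · omega
  · omega

theorem w4_one_nonneg (m y z : ℤ) (hy : 1 ≤ y) (hz : 1 ≤ z) : 0 ≤ w4 m 1 y z := by
  have hmin : min 1 (min y z) = 1 := min_eq_left (le_min hy hz)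
  unfold w4
  rw [hmin]
  split_ifs with h1 h2 h3
  · exact le_refl _
  · omega
  · omega
  · have := Int.emod_two_eq_zero_or_one (1 + y + z - m)
    have h4 := sq_nonneg (1 + y + z - m)
    omega

/-- Properties of a pair in the special class. -/
def PairOK (K y z w : ℤ) : Prop :=
  (∀ x : ℤ, G w (x + (y + z - (3 * K - 1))) ≤ w4 (3 * K - 1) x y z) ∧
  G 2 (y + z - 2 * K + 1) ≤ G w (y + z - 2 * K + 1) ∧
  G 3 (y + z - 2 * K + 2) ≤ G w (y + z - 2 * K + 2)
    + (if y = 2 * K ∧ z = 0 then 4 else 0) + (if y = 2 * K ∧ z = 1 then 2 else 0)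
    + (if z = 2 * K ∧ y = 0 then 4 else 0) + (if z = 2 * K ∧ y = 1 then 2 else 0) ∧
  (1 ≤ y + z - 2 * K → y + z - 2 * K ≤ 2 →
    G w (0 + (y + z - (3 * K - 1))) + 4 * (y + z - 2 * K) ≤ w4 (3 * K - 1) 0 y z ∧
    G w (1 + (y + z - (3 * K - 1))) + 2 * (y + z - 2 * K) ≤ w4 (3 * K - 1) 1 y z) ∧
  (y + z - 2 * K = 3 →
    G w (0 + (y + z - (3 * K - 1))) + 4 ≤ w4 (3 * K - 1) 0 y z ∧
    G 2 (y + z - 2 * K + 1) + 4 ≤ G w (y + z - 2 * K + 1) ∧
    G 3 (y + z - 2 * K + 2) + 4 ≤ G w (y + z - 2 * K + 2)) ∧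
  (4 ≤ y + z - 2 * K →
    G 2 (y + z - 2 * K + 1) + 2 * (y + z - 2 * K) ≤ G w (y + z - 2 * K + 1) ∧
    G 3 (y + z - 2 * K + 2) + 2 * (y + z - 2 * K) ≤ G w (y + z - 2 * K + 2))

theorem PairOK.comm {K y z w : ℤ} (h : PairOK K y z w) : PairOK K z y w := by
  unfold PairOK at h ⊢
  rw [add_comm z y]
  simp only [w4_comm (3 * K - 1) _ z y]
  obtain ⟨h1, h2, h3, h4, h5, h6⟩ := h
  refine ⟨h1, h2, ?_, h4, h5, h6⟩
  linarith

theorem pair_aux (K y z : ℤ) (hK : K % 2 = 0) (hK2 : 2 ≤ K) (hz0 : 0 ≤ z) (hzy : z ≤ y)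
    (hy : y ≤ 2 * K) : ∃ w, PairOK K y z w := by
  obtain ⟨Y, hY⟩ : ∃ Y : ℤ, Y = y + z - 2 * K := ⟨_, rfl⟩
  have hc : ∀ x : ℤ, x + (y + z - (3 * K - 1)) = x + y + z - (3 * K - 1) := fun x => by ring
  by_cases hneg : Y + 2 < 0
  · -- w = 0
    refine ⟨0, fun x => ?_, ?_, ?_, ?_, ?_, ?_⟩
    · rw [hc]
      exact minor_aux _ x y z 0 hzy (le_refl _) (by omega) (by omega) (Or.inl (by norm_num))
    · rw [G_zero]; exact G_nonpos _ _ (by norm_num) (by omega)
    · rw [G_zero, if_neg (by omega), if_neg (by omega), if_neg (by omega), if_neg (by omega)]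
      simp only [add_zero]
      exact G_nonpos _ _ (by norm_num) (by omega)
    · intro h1; omega
    · intro h1; omega
    · intro h1; omega
  · by_cases hbig : 2 * z < Y + 2
    · -- exceptional pairs
      have hcases : (y = 2 * K ∧ z = 0) ∨ (y = 2 * K ∧ z = 1) ∨ (y = 2 * K - 1 ∧ z = 0) := by omega
      rcases hcases with ⟨h1, h2⟩ | ⟨h1, h2⟩ | ⟨h1, h2⟩
      · subst h1 h2
        refine ⟨0, fun x => ?_, ?_, ?_, ?_, ?_, ?_⟩
        · rw [hc]
          exact minor_aux _ x _ _ 0 hzy (le_refl _) (by omega) (by omega) (Or.inl (by norm_num))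
        · rw [G_zero]; simp [G]
        · rw [G_zero, if_pos (by omega), if_neg (by omega), if_neg (by omega), if_neg (by omega)]
          simp [G]
        · intro h1; omega
        · intro h1; omega
        · intro h1; omega
      · subst h1 h2
        refine ⟨2, fun x => ?_, ?_, ?_, ?_, ?_, ?_⟩
        · rw [hc]
          exact minor_aux _ x _ _ 2 hzy (by norm_num) (by omega) (by omega) (Or.inl (by norm_num))
        · exact le_refl _
        · rw [if_neg (by omega), if_pos (by omega), if_neg (by omega), if_neg (by omega)]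
          simp [G]
        · intro _ _
          constructor
          · have := w4_zero_nonneg (3 * K - 1) (2 * K) 1 (by omega) (by omega)
            refine le_trans ?_ this
            unfold G
            norm_num
            omega
          · rcases lt_or_ge (2:ℤ) K with h | h
            · have := w4_one_nonneg (3 * K - 1) (2 * K) 1 (by omega) (by omega)
              refine le_trans ?_ this
              unfold G
              norm_num
              omega
            · have : K = 2 := by omega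
              subst this
              decide
        · intro h1; omega
        · intro h1; omega
      · subst h1 h2
        refine ⟨0, fun x => ?_, ?_, ?_, ?_, ?_, ?_⟩
        · rw [hc]
          exact minor_aux _ x _ _ 0 hzy (le_refl _) (by omega) (by omega) (Or.inl (by norm_num))
        · rw [G_zero]
          exact G_nonpos _ _ (by norm_num) (by omega)
        · rw [G_zero, if_neg (by omega), if_neg (by omega), if_neg (by omega), if_neg (by omega)]
          have : (2 * K - 1 + 0 - 2 * K + 2 : ℤ) = 1 := by ring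
          rw [this]
          decide
        · intro h1; omega
        · intro h1; omega
        · intro h1; omega
    · -- main
      have hsub := sub_ge Y
      have h20 : (y + z - 2 * K + 1 : ℤ) = Y + 1 := by omega
      have h30 : (y + z - 2 * K + 2 : ℤ) = Y + 2 := by omega
      have hG2 : G 2 (Y + 1) = 4 * Y := by unfold G; norm_num; ring
      have hG3 : G 3 (Y + 2) = 6 * Y + 4 := by unfold G; norm_num; ring
      have hGw : G (Y + 2) (Y + 1) = Y ^ 2 + 2 * Y + Y % 2 := by
        unfold G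
        have : (Y + 2) % 2 = Y % 2 := by omega
        rw [this]; ring
      have hGw' : G (Y + 2) (Y + 2) = Y ^ 2 + 4 * Y + 4 + Y % 2 := by
        unfold G
        have : (Y + 2) % 2 = Y % 2 := by omega
        rw [this]; ring
      refine ⟨Y + 2, fun x => ?_, ?_, ?_, ?_, ?_, ?_⟩
      · rw [hc]
        exact minor_aux _ x _ _ _ hzy (by omega) (by omega) (by omega) (by omega)
      · rw [h20, hG2, hGw]; linarith
      · rw [h30, hG3, hGw']
        have e1 : (0:ℤ) ≤ (if y = 2 * K ∧ z = 0 then 4 else 0) := by split_ifs <;> norm_num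
        have e2 : (0:ℤ) ≤ (if y = 2 * K ∧ z = 1 then 2 else 0) := by split_ifs <;> norm_num
        have e3 : (0:ℤ) ≤ (if z = 2 * K ∧ y = 0 then 4 else 0) := by split_ifs <;> norm_num
        have e4 : (0:ℤ) ≤ (if z = 2 * K ∧ y = 1 then 2 else 0) := by split_ifs <;> norm_num
        linarith
      · intro h1 h2
        rw [← hY] at h1 h2 ⊢
        constructor
        · have := w4_zero_nonneg (3 * K - 1) y z (by omega) (by omega)
          refine le_trans ?_ this
          have e : (0 + (y + z - (3 * K - 1)) : ℤ) = Y + 1 - K := by omega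
          rw [e]
          have hY12 : Y = 1 ∨ Y = 2 := by omega
          rcases hY12 with h | h <;> rw [h] <;> unfold G <;> norm_num <;> omega
        · have e : (1 + (y + z - (3 * K - 1)) : ℤ) = Y + 2 - K := by omega
          rw [e]
          have hY12 : Y = 1 ∨ Y = 2 := by omega
          rcases lt_or_ge (2:ℤ) K with h | h
          · have := w4_one_nonneg (3 * K - 1) y z (by omega) (by omega)
            refine le_trans ?_ this
            rcases hY12 with h' | h' <;> rw [h'] <;> unfold G <;> norm_num <;> omega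
          · have hK' : K = 2 := by omega
            subst hK'
            have hmin : min 1 (min y z) = 1 := min_eq_left (le_min (by omega) (by omega))
            have hq : 1 + y + z - (3 * 2 - 1) = Y := by omega
            unfold w4
            rw [hq, hmin]
            rcases hY12 with h' | h' <;> rw [h'] <;> decide
      · intro h1
        rw [← hY] at h1 ⊢
        refine ⟨?_, ?_, ?_⟩
        · have := w4_zero_nonneg (3 * K - 1) y z (by omega) (by omega)
          refine le_trans ?_ this
          have e : (0 + (y + z - (3 * K - 1)) : ℤ) = Y + 1 - K := by omega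
          rw [e, h1]
          unfold G
          norm_num
          omega
        · rw [hG2, hGw, h1]; norm_num
        · rw [hG3, hGw', h1]; norm_num
      · intro h1
        rw [← hY] at h1 ⊢
        have hmod := Int.emod_two_eq_zero_or_one Y
        refine ⟨?_, ?_⟩
        · rw [hG2, hGw]
          nlinarith [mul_nonneg (show (0:ℤ) ≤ Y by omega) (show (0:ℤ) ≤ Y - 4 by omega), Int.emod_nonneg Y (show (2:ℤ) ≠ 0 by norm_num)]
        · rw [hG3, hGw']
          nlinarith [mul_nonneg (show (0:ℤ) ≤ Y by omega) (show (0:ℤ) ≤ Y - 4 by omega), Int.emod_nonneg Y (show (2:ℤ) ≠ 0 by norm_num)]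

theorem pair_ok (K y z : ℤ) (hK : K % 2 = 0) (hK2 : 2 ≤ K) (hy0 : 0 ≤ y) (hz0 : 0 ≤ z)
    (hy : y ≤ 2 * K) (hz : z ≤ 2 * K) : ∃ w, PairOK K y z w := by
  rcases le_total z y with h | h
  · exact pair_aux K y z hK hK2 hz0 h hy
  · obtain ⟨w, hw⟩ := pair_aux K z y hK hK2 hy0 h hz
    exact ⟨w, hw.comm⟩

/-- Special class of (4): `m = 3K - 1`, `k = K` even, level sets of size at most `2K`. -/
theorem lay_special (l : ℕ) (K s : ℤ) (sg : Fin l → ℤ) (hK : K % 2 = 0) (hK2 : 2 ≤ K)
    (h0 : ∀ i, 0 ≤ sg i) (h1 : ∀ i, sg i ≤ 2 * K)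
    (hsum : ∑ i, sg i = K * l + s) (hs0 : 0 ≤ s) (hs1 : s ≤ l) :
    target l (3 * K - 1) K s ≤ ∑ v, ∑ u, w4 (3 * K - 1) (sg v) (sg u) (sg (Fin.rev u)) := by
  -- indicator functions of the low halves of the exceptional pairs
  obtain ⟨e0, he0⟩ : ∃ e0 : Fin l → ℤ, ∀ v, e0 v =
      if sg v = 0 ∧ sg (Fin.rev v) = 2 * K then 1 else 0 := ⟨_, fun _ => rfl⟩
  obtain ⟨e1, he1⟩ : ∃ e1 : Fin l → ℤ, ∀ v, e1 v =
      if sg v = 1 ∧ sg (Fin.rev v) = 2 * K then 1 else 0 := ⟨_, fun _ => rfl⟩
  have e0nn : ∀ v, 0 ≤ e0 v := fun v => by rw [he0]; split_ifs <;> norm_num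
  have e1nn : ∀ v, 0 ≤ e1 v := fun v => by rw [he1]; split_ifs <;> norm_num
  set E0 : ℤ := ∑ v, e0 v with hE0
  set E1 : ℤ := ∑ v, e1 v with hE1
  have hE0nn : 0 ≤ E0 := Finset.sum_nonneg (fun v _ => e0nn v)
  have hE1nn : 0 ≤ E1 := Finset.sum_nonneg (fun v _ => e1nn v)
  -- 2 (E0 + E1) ≤ l
  have hEl : 2 * (E0 + E1) ≤ l := by
    have h2 : ∑ v : Fin l, ((e0 v + e0 (Fin.rev v)) + (e1 v + e1 (Fin.rev v))) ≤
        ∑ _v : Fin l, (1 : ℤ) := by
      apply Finset.sum_le_sum
      intro v _
      rw [he0, he0, he1, he1, Fin.rev_rev]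
      split_ifs <;> omega
    rw [Finset.sum_add_distrib, Finset.sum_add_distrib, Finset.sum_add_distrib, sum_rev l e0,
      sum_rev l e1] at h2
    simp at h2
    linarith
  set D : ℤ := 4 * E0 + 2 * E1 with hD
  have hDnn : 0 ≤ D := by positivity
  -- rowwise
  have hrow : ∀ u : Fin l,
      L l (3 * K - 1) K s (sg u + sg (Fin.rev u) - (3 * K - 1))
        - s * (4 * (e0 u + e0 (Fin.rev u)) + 2 * (e1 u + e1 (Fin.rev u)))
        + (sg u + sg (Fin.rev u) - 2 * K) * D ≤
      ∑ v, w4 (3 * K - 1) (sg v) (sg u) (sg (Fin.rev u)) := by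
    intro u
    obtain ⟨w, hw, r1, r2, g12, g3, g4⟩ :=
      pair_ok K (sg u) (sg (Fin.rev u)) hK hK2 (h0 _) (h0 _) (h1 _) (h1 _)
    set y := sg u with hy
    set z := sg (Fin.rev u) with hz
    have hA : (K + (y + z - (3 * K - 1)) : ℤ) = y + z - 2 * K + 1 := by ring
    have hB : (K + (y + z - (3 * K - 1)) + 1 : ℤ) = y + z - 2 * K + 2 := by ring
    have hd : (if y = 2 * K ∧ z = 0 then (4:ℤ) else 0) + (if y = 2 * K ∧ z = 1 then 2 else 0)
        + (if z = 2 * K ∧ y = 0 then 4 else 0) + (if z = 2 * K ∧ y = 1 then 2 else 0)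
        = 4 * (e0 u + e0 (Fin.rev u)) + 2 * (e1 u + e1 (Fin.rev u)) := by
      rw [he0, he0, he1, he1, Fin.rev_rev, ← hy, ← hz]
      have a1 : (z = 2 * K ∧ y = 0) ↔ (y = 0 ∧ z = 2 * K) := and_comm
      have a2 : (z = 2 * K ∧ y = 1) ↔ (y = 1 ∧ z = 2 * K) := and_comm
      have a3 : (y = 2 * K ∧ z = 0) ↔ (z = 0 ∧ y = 2 * K) := and_comm
      have a4 : (y = 2 * K ∧ z = 1) ↔ (z = 1 ∧ y = 2 * K) := and_comm
      simp only [a1, a2, a3, a4]
      split_ifs <;> norm_num
    set d : ℤ := 4 * (e0 u + e0 (Fin.rev u)) + 2 * (e1 u + e1 (Fin.rev u)) with hdd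
    have hdnn : 0 ≤ d := by
      have := e0nn u; have := e0nn (Fin.rev u); have := e1nn u; have := e1nn (Fin.rev u)
      positivity
    have r2' : G 3 (y + z - 2 * K + 2) ≤ G w (y + z - 2 * K + 2) + d := by
      rw [← hd]; linarith
    have hT1 : (3 * K - (3 * K - 1) + 1 : ℤ) = 2 := by ring
    have hT2 : (3 * K - (3 * K - 1) + 2 : ℤ) = 3 := by ring
    have hL : L l (3 * K - 1) K s (y + z - (3 * K - 1)) =
        ((l : ℤ) - s) * G 2 (y + z - 2 * K + 1) + s * G 3 (y + z - 2 * K + 2) := by
      unfold L; rw [hT1, hT2, hB, hA]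
    have hSG := sum_G l K s (y + z - (3 * K - 1)) w sg hsum
    rw [hB, hA] at hSG
    have hls : (0 : ℤ) ≤ l - s := by omega
    rw [hL]
    by_cases hneg : y + z - 2 * K ≤ 0
    · have h3 : (y + z - 2 * K) * D ≤ 0 := mul_nonpos_of_nonpos_of_nonneg hneg hDnn
      have h4 : ∑ v, G w (sg v + (y + z - (3 * K - 1))) ≤ ∑ v, w4 (3 * K - 1) (sg v) y z :=
        Finset.sum_le_sum (fun v _ => hw _)
      rw [hSG] at h4
      have h5 := mul_le_mul_of_nonneg_left r1 hls
      have h6 := mul_le_mul_of_nonneg_left r2' hs0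
      linarith
    · by_cases h12 : y + z - 2 * K ≤ 2
      · obtain ⟨g0, g1⟩ := g12 (by omega) h12
        have h4 : ∑ v, (G w (sg v + (y + z - (3 * K - 1))) +
            (y + z - 2 * K) * (4 * e0 v + 2 * e1 v)) ≤ ∑ v, w4 (3 * K - 1) (sg v) y z := by
          apply Finset.sum_le_sum
          intro v _
          rw [he0, he1]
          by_cases c0 : sg v = 0
          · rw [c0]
            split_ifs with i1 i2 i2
            · omega
            · linarith
            · omega
            · have := hw 0; linarith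
          · by_cases c1 : sg v = 1
            · rw [c1]
              split_ifs with i1 i2 i2
              · omega
              · omega
              · linarith
              · have := hw 1; linarith
            · rw [if_neg (by tauto), if_neg (by tauto)]
              have := hw (sg v)
              linarith
        rw [Finset.sum_add_distrib, hSG, ← Finset.mul_sum, Finset.sum_add_distrib,
          ← Finset.mul_sum, ← Finset.mul_sum, ← hE0, ← hE1] at h4
        have h5 := mul_le_mul_of_nonneg_left r1 hls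
        have h6 := mul_le_mul_of_nonneg_left r2' hs0
        linarith
      · by_cases h3 : y + z - 2 * K = 3
        · obtain ⟨g0, g2, g3'⟩ := g3 h3
          have h4 : ∑ v, (G w (sg v + (y + z - (3 * K - 1))) + 4 * e0 v) ≤
              ∑ v, w4 (3 * K - 1) (sg v) y z := by
            apply Finset.sum_le_sum
            intro v _
            rw [he0]
            by_cases c0 : sg v = 0
            · rw [c0]
              split_ifs with i1
              · linarith
              · have := hw 0; linarith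
            · rw [if_neg (by tauto)]
              have := hw (sg v)
              linarith
          rw [Finset.sum_add_distrib, hSG, ← Finset.mul_sum, ← hE0] at h4
          have h5 := mul_le_mul_of_nonneg_left g2 hls
          have h6 := mul_le_mul_of_nonneg_left g3' hs0
          have h7 := mul_nonneg hs0 hdnn
          rw [h3] at h4 h5 h6 ⊢
          linarith
        · obtain ⟨g2, g3'⟩ := g4 (by omega)
          have h4 : ∑ v, G w (sg v + (y + z - (3 * K - 1))) ≤ ∑ v, w4 (3 * K - 1) (sg v) y z :=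
            Finset.sum_le_sum (fun v _ => hw _)
          rw [hSG] at h4
          have h5 := mul_le_mul_of_nonneg_left g2 hls
          have h6 := mul_le_mul_of_nonneg_left g3' hs0
          have h7 := mul_nonneg hs0 hdnn
          have h8 : (y + z - 2 * K) * D ≤ (y + z - 2 * K) * (2 * l) :=
            mul_le_mul_of_nonneg_left (by linarith) (by omega)
          nlinarith
  have hfin := Finset.sum_le_sum (fun u (_ : u ∈ (Finset.univ : Finset (Fin l))) => hrow u)
  rw [Finset.sum_add_distrib, Finset.sum_sub_distrib, sum_L l (3 * K - 1) K s sg hsum,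
    ← Finset.mul_sum, ← Finset.sum_mul, Finset.sum_add_distrib, ← Finset.mul_sum,
    ← Finset.mul_sum, Finset.sum_add_distrib, Finset.sum_add_distrib, sum_rev l e0, sum_rev l e1,
    ← hE0, ← hE1, Finset.sum_sub_distrib, Finset.sum_add_distrib, sum_rev l sg, hsum,
    Finset.sum_comm] at hfin
  simp only [Finset.sum_const, Finset.card_univ, Fintype.card_fin, nsmul_eq_mul] at hfin
  have : (K * (l:ℤ) + s + (K * l + s) - l * (2 * K)) * D = 2 * s * D := by ring
  rw [this] at hfin
  have h9 : s * (4 * (E0 + E0) + 2 * (E1 + E1)) = 2 * s * D := by rw [hD]; ring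
  rw [h9] at hfin
  linarith

/-- All cases of (4). -/
theorem lay_all (l : ℕ) (m K k s : ℤ) (sg : Fin l → ℤ) (hm : m % 2 = 1) (hm5 : 2 ≤ m)
    (hK : 3 * K ≤ m + 1) (hK' : m + 1 < 3 * K + 3) (hk : K ≤ k)
    (h0 : ∀ i, 0 ≤ sg i) (h1 : ∀ i, sg i ≤ 2 * K)
    (hsum : ∑ i, sg i = k * l + s) (hs0 : 0 ≤ s) (hs1 : s ≤ l) :
    target l m k s ≤ ∑ v, ∑ u, w4 m (sg v) (sg u) (sg (Fin.rev u)) := by
  by_cases hsp : 3 * K = m + 1 ∧ k = K
  · obtain ⟨a, b⟩ := hsp
    subst b
    have hm' : m = 3 * k - 1 := by omega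
    subst hm'
    exact lay_special l k s sg (by omega) (by omega) h0 h1 hsum hs0 hs1
  · exact lay l m (2 * K) k s sg hm (by omega) (by omega) h0 h1 (by omega) hsum hs0 hs1

end S4Four
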