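import Mathlib

/-! Integer inequality (4) of the layer-cake proof of R6 (MP_682720_co). -/

namespace S4Four

open Finset

/-- Four times the Pollard bound with parity (for `z` odd: the average over even splittings). -/
def w4 (m z x y : Int) : Int :=
  if z + x + y - m ≤ 0 then 0
  else if 2 * min z (min x y) < z + x + y - m then
    4 * min z (min x y) * (z + x + y - m - min z (min x y))
  else if z % 2 = 0 then (z + x + y - m) ^ 2 - (z + x + y - m) % 2
  else (z + x + y - m) ^ 2 + (z + x + y - m) % 2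

/-- Tangent value with slope parameter `w` at `q`. -/
def G (w q : ℤ) : ℤ := 2 * w * q - w ^ 2 + w % 2

theorem sq_sub_ge_one {a b : ℤ} (h : a % 2 ≠ b % 2) : 1 ≤ (a - b) ^ 2 := by
  have : a - b ≠ 0 := by
    intro h'
    apply h
    have : a = b := by omega
    rw [this]
  have := Int.one_le_abs this
  nlinarith [sq_abs (a - b), abs_nonneg (a - b)]

theorem w4_comm (m x y z : ℤ) : w4 m x y z = w4 m x z y := by
  unfold w4
  rw [min_comm y z, show x + y + z - m = x + z + y - m by ring]

/-- Validity of a slope parameter `w` for the pair `y`, `z`. -/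
theorem minor_aux (m x y z w : ℤ) (hzy : z ≤ y)
    (hw0 : 0 ≤ w) (hwp : 2 * (y + z - m) ≤ w) (hwz : w ≤ 2 * z)
    (hpar : w % 2 = 0 ∨ (y + z - m) % 2 = 0) :
    G w (x + y + z - m) ≤ w4 m x y z := by
  unfold w4 G
  have hmyz : min y z = z := min_eq_right hzy
  rw [hmyz]
  set q : ℤ := x + y + z - m with hq
  split_ifs with h1 h2 h3
  · -- q ≤ 0
    have : w % 2 ≤ w ^ 2 := by
      rcases Int.emod_two_eq_zero_or_one w with h | h
      · rw [h]; positivity
      · rw [h]
        have : 1 ≤ w := by omega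
        nlinarith
    nlinarith
  · rcases le_total x z with hxz | hxz
    · rw [min_eq_left hxz] at h2 ⊢
      -- w ≥ 2p > 2x
      have hp : x < q - x := by omega
      have h5 : 2 * (q - x) ≤ w := by omega
      rcases Int.emod_two_eq_zero_or_one w with h | h
      · rw [h]
        nlinarith [mul_nonneg (show (0:ℤ) ≤ w - 2 * x by omega) (show (0:ℤ) ≤ w - 2 * (q - x) by omega)]
      · rw [h]
        nlinarith [mul_nonneg (show (0:ℤ) ≤ w - 2 * x - 1 by omega) (show (0:ℤ) ≤ w - 2 * (q - x) - 1 by omega)]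
    · rw [min_eq_right hxz] at h2 ⊢
      rcases Int.emod_two_eq_zero_or_one w with h | h
      · rw [h]
        nlinarith [mul_nonneg (show (0:ℤ) ≤ 2 * z - w by omega) (show (0:ℤ) ≤ 2 * q - 2 * z - w by omega)]
      · rw [h]
        nlinarith [mul_nonneg (show (0:ℤ) ≤ 2 * z - w - 1 by omega) (show (0:ℤ) ≤ 2 * q - 2 * z - w - 1 by omega)]
  · -- x even main
    rcases Int.emod_two_eq_zero_or_one w with h | h
    · rcases Int.emod_two_eq_zero_or_one q with h' | h'
      · rw [h, h']; nlinarith [sq_nonneg (q - w)]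
      · have := sq_sub_ge_one (a := q) (b := w) (by omega)
        rw [h, h']; nlinarith
    · have hqe : q % 2 = 0 := by omega
      have := sq_sub_ge_one (a := q) (b := w) (by omega)
      rw [h, hqe]; nlinarith
  · -- x odd main
    rcases Int.emod_two_eq_zero_or_one w with h | h
    · rcases Int.emod_two_eq_zero_or_one q with h' | h'
      · rw [h, h']; nlinarith [sq_nonneg (q - w)]
      · rw [h, h']; nlinarith [sq_nonneg (q - w)]
    · rcases Int.emod_two_eq_zero_or_one q with h' | h'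
      · have := sq_sub_ge_one (a := q) (b := w) (by omega)
        rw [h, h']; nlinarith
      · rw [h, h']; nlinarith [sq_nonneg (q - w)]

theorem G_zero (q : ℤ) : G 0 q = 0 := by unfold G; norm_num

theorem G_nonpos (w q : ℤ) (hw : 0 ≤ w) (hq : q ≤ 0) : G w q ≤ 0 := by
  unfold G
  have h2 : w % 2 ≤ w ^ 2 := by
    rcases Int.emod_two_eq_zero_or_one w with h | h
    · rw [h]; positivity
    · rw [h]
      have : 1 ≤ w := by omega
      nlinarith
  have h3 : w * q ≤ 0 := mul_nonpos_of_nonneg_of_nonpos hw hq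
  nlinarith

theorem sub_ge (Y : ℤ) : 0 ≤ Y ^ 2 - 2 * Y + Y % 2 := by
  rcases Int.emod_two_eq_zero_or_one Y with h | h
  · rw [h]
    have : Y ≤ 0 ∨ 2 ≤ Y := by omega
    rcases this with h | h <;> nlinarith
  · rw [h]; nlinarith [sq_nonneg (Y - 1)]

/-- Row inequality, ordered pair `z ≤ y`. -/
theorem row_aux (m k y z : ℤ) (hm : m % 2 = 1) (hT : m ≤ 3 * k + 1) (hz0 : 0 ≤ z) (hzy : z ≤ y)
    (hy : 2 * y ≤ m + k) (hym : y ≤ m) :
    ∃ w : ℤ, 0 ≤ w ∧ 2 * (y + z - m) ≤ w ∧ w ≤ 2 * z ∧ (w % 2 = 0 ∨ (y + z - m) % 2 = 0) ∧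
      G (3 * k - m + 1) (k + y + z - m) ≤ G w (k + y + z - m) ∧
      G (3 * k - m + 2) (k + y + z - m + 1) ≤ G w (k + y + z - m + 1) := by
  set p : ℤ := y + z - m with hp
  have hq : k + y + z - m = k + p := by rw [hp]; ring
  rw [hq]
  obtain ⟨k', hk'⟩ : ∃ k' : ℤ, k' = k + (1 - k % 2) := ⟨_, rfl⟩
  have hkk := Int.emod_two_eq_zero_or_one k
  by_cases hlo : p + k' < 0
  · -- w = 0
    refine ⟨0, le_refl _, by omega, by omega, Or.inl (by norm_num), ?_, ?_⟩
    · rw [G_zero]; exact G_nonpos _ _ (by omega) (by omega)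
    · rw [G_zero]; exact G_nonpos _ _ (by omega) (by omega)
  · by_cases hhi : 2 * z < p + k'
    · -- w = 2z
      refine ⟨2 * z, by omega, by omega, le_refl _, Or.inl (by omega), ?_, ?_⟩
      · unfold G
        have e1 : (2 * z) % 2 = 0 := by omega
        rw [e1]
        rcases hkk with hk | hk
        · have e2 : (3 * k - m + 1) % 2 = 0 := by omega
          rw [e2]
          nlinarith [mul_nonneg (show (0:ℤ) ≤ 3 * k - m + 1 - 2 * z by omega)
            (show (0:ℤ) ≤ k + m + 1 - 2 * y by omega)]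
        · have e2 : (3 * k - m + 1) % 2 = 1 := by omega
          rw [e2]
          nlinarith [mul_nonneg (show (0:ℤ) ≤ 3 * k - m + 1 - 2 * z - 1 by omega)
            (show (0:ℤ) ≤ k + m + 1 - 2 * y - 1 by omega)]
      · unfold G
        have e1 : (2 * z) % 2 = 0 := by omega
        rw [e1]
        rcases hkk with hk | hk
        · have e2 : (3 * k - m + 2) % 2 = 1 := by omega
          rw [e2]
          nlinarith [mul_nonneg (show (0:ℤ) ≤ 3 * k - m + 2 - 2 * z - 1 by omega)
            (show (0:ℤ) ≤ k + m - 2 * y - 1 by omega)]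
        · have e2 : (3 * k - m + 2) % 2 = 0 := by omega
          rw [e2]
          nlinarith [mul_nonneg (show (0:ℤ) ≤ 3 * k - m + 2 - 2 * z by omega)
            (show (0:ℤ) ≤ k + m - 2 * y by omega)]
    · -- main
      have hY := sub_ge (y + z - 2 * k)
      refine ⟨p + k', by omega, by omega, by omega, by omega, ?_, ?_⟩
      · unfold G
        rcases hkk with hk | hk
        · have hk2 : k' = k + 1 := by omega
          have e2 : (3 * k - m + 1) % 2 = 0 := by omega
          have e3 : (p + k') % 2 = (y + z - 2 * k) % 2 := by omega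
          rw [e2, e3, hk2]
          nlinarith
        · have hk2 : k' = k := by omega
          have e2 : (3 * k - m + 1) % 2 = 1 := by omega
          have e3 : (p + k') % 2 = (y + z - 2 * k) % 2 := by omega
          rw [e2, e3, hk2]
          nlinarith
      · unfold G
        rcases hkk with hk | hk
        · have hk2 : k' = k + 1 := by omega
          have e2 : (3 * k - m + 2) % 2 = 1 := by omega
          have e3 : (p + k') % 2 = (y + z - 2 * k) % 2 := by omega
          rw [e2, e3, hk2]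
          nlinarith
        · have hk2 : k' = k := by omega
          have e2 : (3 * k - m + 2) % 2 = 0 := by omega
          have e3 : (p + k') % 2 = (y + z - 2 * k) % 2 := by omega
          rw [e2, e3, hk2]
          nlinarith

/-- Row inequality with the affine minorant of `w4 m · y z`. -/
theorem row (m k y z : ℤ) (hm : m % 2 = 1) (hT : m ≤ 3 * k + 1) (hy0 : 0 ≤ y) (hz0 : 0 ≤ z)
    (hy : 2 * y ≤ m + k) (hz : 2 * z ≤ m + k) (hym : y ≤ m) (hzm : z ≤ m) :
    ∃ w : ℤ, (∀ x : ℤ, G w (x + (y + z - m)) ≤ w4 m x y z) ∧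
      G (3 * k - m + 1) (k + (y + z - m)) ≤ G w (k + (y + z - m)) ∧
      G (3 * k - m + 2) (k + (y + z - m) + 1) ≤ G w (k + (y + z - m) + 1) := by
  rcases le_total z y with h | h
  · obtain ⟨w, h1, h2, h3, h4, h5, h6⟩ := row_aux m k y z hm hT hz0 h hy hym
    have e : k + y + z - m = k + (y + z - m) := by ring
    rw [e] at h5 h6
    refine ⟨w, fun x => ?_, h5, h6⟩
    have := minor_aux m x y z w h h1 h2 h3 h4
    rwa [show x + y + z - m = x + (y + z - m) by ring] at this
  · obtain ⟨w, h1, h2, h3, h4, h5, h6⟩ := row_aux m k z y hm hT hy0 h hz hzm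
    have e : k + z + y - m = k + (y + z - m) := by ring
    rw [e] at h5 h6
    refine ⟨w, fun x => ?_, h5, h6⟩
    have := minor_aux m x z y w h h1 h2 h3 h4
    rw [w4_comm]
    rwa [show x + z + y - m = x + (y + z - m) by ring] at this

/-- Sum of an affine minorant over `v`. -/
theorem sum_G (l : ℕ) (k s c w : ℤ) (sg : Fin l → ℤ) (hsum : ∑ i, sg i = k * l + s) :
    ∑ v, G w (sg v + c) = ((l : ℤ) - s) * G w (k + c) + s * G w (k + c + 1) := by
  have h : ∀ v : Fin l, G w (sg v + c) = 2 * w * sg v + (2 * w * c - w ^ 2 + w % 2) := by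
    intro v; unfold G; ring
  rw [Finset.sum_congr rfl (fun v _ => h v), Finset.sum_add_distrib, ← Finset.mul_sum, hsum,
    Finset.sum_const, Finset.card_univ, Fintype.card_fin]
  unfold G
  simp only [nsmul_eq_mul]
  ring

theorem sum_rev (l : ℕ) (f : Fin l → ℤ) : ∑ u, f (Fin.rev u) = ∑ u, f u :=
  Fintype.sum_equiv Fin.revPerm _ _ (fun u => by simp)

/-- The target. -/
def target (l : ℕ) (m k s : ℤ) : ℤ :=
  if (3 * k - m) % 2 = 0 then
    (l : ℤ) ^ 2 * (3 * k - m) ^ 2 + 6 * l * s * (3 * k - m) + 4 * l * s + 4 * s ^ 2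
  else (l : ℤ) ^ 2 * ((3 * k - m) ^ 2 - 1) + 6 * l * s * (3 * k - m + 1) + 4 * s ^ 2

/-- Row value. -/
def L (l : ℕ) (m k s c : ℤ) : ℤ :=
  ((l : ℤ) - s) * G (3 * k - m + 1) (k + c) + s * G (3 * k - m + 2) (k + c + 1)

theorem sum_L (l : ℕ) (m k s : ℤ) (sg : Fin l → ℤ) (hsum : ∑ i, sg i = k * l + s) :
    ∑ u, L l m k s (sg u + sg (Fin.rev u) - m) = target l m k s := by
  have h : ∀ u : Fin l, L l m k s (sg u + sg (Fin.rev u) - m) =
      (((l : ℤ) - s) * (2 * (3 * k - m + 1)) + s * (2 * (3 * k - m + 2))) * (sg u + sg (Fin.rev u))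
        + L l m k s (- m) := by
    intro u; unfold L G; ring
  rw [Finset.sum_congr rfl (fun v _ => h v), Finset.sum_add_distrib, ← Finset.mul_sum,
    Finset.sum_add_distrib, sum_rev, hsum, Finset.sum_const, Finset.card_univ, Fintype.card_fin]
  unfold L G target
  simp only [nsmul_eq_mul]
  split_ifs with hp
  · have e1 : (3 * k - m + 1) % 2 = 1 := by omega
    have e2 : (3 * k - m + 2) % 2 = 0 := by omega
    rw [e1, e2]; ring
  · have e1 : (3 * k - m + 1) % 2 = 0 := by omega
    have e2 : (3 * k - m + 2) % 2 = 1 := by omega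
    rw [e1, e2]; ring

/-- General case of (4): every level set has at most `Y` elements, `2 Y ≤ m + k`. -/
theorem lay (l : ℕ) (m Y k s : ℤ) (sg : Fin l → ℤ) (hm : m % 2 = 1) (hT : m ≤ 3 * k + 1)
    (hY : 2 * Y ≤ m + k) (h0 : ∀ i, 0 ≤ sg i) (h1 : ∀ i, sg i ≤ Y) (hYm : Y ≤ m)
    (hsum : ∑ i, sg i = k * l + s) (hs0 : 0 ≤ s) (hs1 : s ≤ l) :
    target l m k s ≤ ∑ v, ∑ u, w4 m (sg v) (sg u) (sg (Fin.rev u)) := by
  rw [← sum_L l m k s sg hsum, Finset.sum_comm]
  apply Finset.sum_le_sum
  intro u _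
  obtain ⟨w, hw, h2, h3⟩ := row m k (sg u) (sg (Fin.rev u)) hm hT (h0 _) (h0 _)
    (by have := h1 u; omega) (by have := h1 (Fin.rev u); omega)
    ((h1 _).trans hYm) ((h1 _).trans hYm)
  calc L l m k s (sg u + sg (Fin.rev u) - m)
      ≤ ((l : ℤ) - s) * G w (k + (sg u + sg (Fin.rev u) - m))
        + s * G w (k + (sg u + sg (Fin.rev u) - m) + 1) := by
        unfold L
        exact add_le_add (mul_le_mul_of_nonneg_left h2 (by omega))
          (mul_le_mul_of_nonneg_left h3 hs0)
    _ = ∑ v, G w (sg v + (sg u + sg (Fin.rev u) - m)) := (sum_G l k s _ w sg hsum).symm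
    _ ≤ ∑ v, w4 m (sg v) (sg u) (sg (Fin.rev u)) := Finset.sum_le_sum (fun v _ => hw _)

end S4Four
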